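import Mathlib

/-! Project TOWERS: the integral matrices of determinant one are Zariski dense. -/

set_option autoImplicit false

namespace Pool.Agent.Helper18.TW

open Matrix Matrix.SpecialLinearGroup MvPolynomial

section

variable {Ω : Type*} [Field Ω] {m : ℕ}

theorem diag2n_decompose {i j : Fin m} (hij : i ≠ j) (a : Ω) (ha : a ≠ 0) :
    (diag2n hij a ha : SpecialLinearGroup (Fin m) Ω) = SpecialLinearGroup.transvection hij a *
      SpecialLinearGroup.transvection hij.symm (- a⁻¹) *
      SpecialLinearGroup.transvection hij a *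
      SpecialLinearGroup.transvection hij (-1) *
      SpecialLinearGroup.transvection hij.symm 1 *
      SpecialLinearGroup.transvection hij (-1) := by
  have hji : j ≠ i := hij.symm
  apply Subtype.ext
  have e1 : ∀ b c : Ω, Matrix.single i j b * Matrix.single i j c = (0 : Matrix (Fin m) (Fin m) Ω) :=
    fun b c => Matrix.single_mul_single_of_ne b i j i hji c
  have e2 : ∀ b c : Ω, Matrix.single j i b * Matrix.single j i c = (0 : Matrix (Fin m) (Fin m) Ω) :=
    fun b c => Matrix.single_mul_single_of_ne b j i j hij c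
  have e3 : ∀ b c : Ω, Matrix.single i j b * Matrix.single j i c =
      (Matrix.single i i (b * c) : Matrix (Fin m) (Fin m) Ω) :=
    fun b c => Matrix.single_mul_single_same b i j i c
  have e4 : ∀ b c : Ω, Matrix.single j i b * Matrix.single i j c =
      (Matrix.single j j (b * c) : Matrix (Fin m) (Fin m) Ω) :=
    fun b c => Matrix.single_mul_single_same b j i j c
  have e5 : ∀ b c : Ω, Matrix.single i i b * Matrix.single i j c =
      (Matrix.single i j (b * c) : Matrix (Fin m) (Fin m) Ω) :=
    fun b c => Matrix.single_mul_single_same b i i j c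
  have e6 : ∀ b c : Ω, Matrix.single i i b * Matrix.single j i c =
      (0 : Matrix (Fin m) (Fin m) Ω) :=
    fun b c => Matrix.single_mul_single_of_ne b i i j hij c
  have e7 : ∀ b c : Ω, Matrix.single j j b * Matrix.single j i c =
      (Matrix.single j i (b * c) : Matrix (Fin m) (Fin m) Ω) :=
    fun b c => Matrix.single_mul_single_same b j j i c
  have e8 : ∀ b c : Ω, Matrix.single j j b * Matrix.single i j c =
      (0 : Matrix (Fin m) (Fin m) Ω) :=
    fun b c => Matrix.single_mul_single_of_ne b j j i hji c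
  change diagonal _ = ((((((1 : Matrix (Fin m) (Fin m) Ω) + Matrix.single i j a) *
    (1 + Matrix.single j i (-a⁻¹))) * (1 + Matrix.single i j a)) * (1 + Matrix.single i j (-1))) *
    (1 + Matrix.single j i 1)) * (1 + Matrix.single i j (-1))
  simp only [mul_add, add_mul, mul_one, one_mul,
    e1, e2, e3, e4, e5, e6, e7, e8, add_zero]
  ext k l
  simp only [Matrix.add_apply, Matrix.single_apply, Matrix.one_apply, Matrix.diagonal_apply]
  by_cases hk : k = i
  · subst hk
    by_cases hl : k = l
    · subst hl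
      simp [hji, ha]
    · by_cases hl2 : j = l
      · subst hl2
        simp [hl, hji, ha]
      · simp [hl, hl2, hji]
  · by_cases hk2 : k = j
    · subst hk2
      by_cases hl : k = l
      · subst hl
        simp [hij, hji, ha]
      · by_cases hl2 : i = l
        · subst hl2
          simp [hl, hij, ha]
        · simp [hl, hl2, hij]
    · simp [hk, hk2, Ne.symm hk, Ne.symm hk2]

theorem transvection_induction [Nontrivial (Fin m)] (P : SpecialLinearGroup (Fin m) Ω → Prop)
    (htransvec : ∀ (i j : Fin m) (h : i ≠ j) (c : Ω), P (SpecialLinearGroup.transvection h c))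
    (hmul : ∀ A B, P A → P B → P (A * B)) (A : SpecialLinearGroup (Fin m) Ω) : P A := by
  refine diagonal_transvection_induction' P _ (fun i j hij c hc ↦ ?_) htransvec hmul
  rw [diag2n_decompose hij c hc]
  refine hmul _ _ (hmul _ _ (hmul _ _ (hmul _ _ (hmul _ _ ?_ ?_) ?_) ?_) ?_) ?_
  all_goals exact htransvec _ _ _ _

/-- the value of a polynomial in the entries at a matrix -/
noncomputable def ev (F : MvPolynomial (Fin m × Fin m) Ω) (A : Matrix (Fin m) (Fin m) Ω) : Ω :=
  eval (fun p => A p.1 p.2) F

theorem ev_left (F : MvPolynomial (Fin m × Fin m) Ω) (A : Matrix (Fin m) (Fin m) Ω) :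
    ∃ F' : MvPolynomial (Fin m × Fin m) Ω, ∀ B, ev F' B = ev F (A * B) := by
  refine ⟨bind₁ (fun p => ∑ k, C (A p.1 k) * X (k, p.2)) F, fun B => ?_⟩
  unfold ev
  rw [← aeval_eq_eval, aeval_bind₁, ← aeval_eq_eval]
  congr 2
  funext p
  simp [Matrix.mul_apply]

theorem ev_right (F : MvPolynomial (Fin m × Fin m) Ω) (B : Matrix (Fin m) (Fin m) Ω) :
    ∃ F' : MvPolynomial (Fin m × Fin m) Ω, ∀ A, ev F' A = ev F (A * B) := by
  refine ⟨bind₁ (fun p => ∑ k, C (B k p.2) * X (p.1, k)) F, fun A => ?_⟩
  unfold ev
  rw [← aeval_eq_eval, aeval_bind₁, ← aeval_eq_eval]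
  congr 2
  funext p
  simp [Matrix.mul_apply, mul_comm]

/-- the integral matrix as a matrix over `Ω` -/
def toΩ (Ω : Type*) [Field Ω] {m : ℕ} (g : SpecialLinearGroup (Fin m) ℤ) :
    Matrix (Fin m) (Fin m) Ω :=
  (g : Matrix (Fin m) (Fin m) ℤ).map (Int.castRingHom Ω)

theorem toΩ_mul (g h : SpecialLinearGroup (Fin m) ℤ) : toΩ Ω (g * h) = toΩ Ω g * toΩ Ω h := by
  exact Matrix.map_mul

theorem dense_int [CharZero Ω] (F : MvPolynomial (Fin m × Fin m) Ω)
    (hF : ∀ g : SpecialLinearGroup (Fin m) ℤ, ev F (toΩ Ω g) = 0)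
    (u : SpecialLinearGroup (Fin m) Ω) : ev F (u : Matrix (Fin m) (Fin m) Ω) = 0 := by
  by_cases hm : Nontrivial (Fin m)
  · revert F
    refine transvection_induction (fun u => ∀ F : MvPolynomial (Fin m × Fin m) Ω,
      (∀ g : SpecialLinearGroup (Fin m) ℤ, ev F (toΩ Ω g) = 0) →
      ev F (u : Matrix (Fin m) (Fin m) Ω) = 0) ?_ ?_ u
    · intro i j hij c F hF
      -- a polynomial in `c`
      let q : Polynomial Ω := aeval (fun p : Fin m × Fin m =>
        Polynomial.C ((1 : Matrix (Fin m) (Fin m) Ω) p.1 p.2) +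
          (if i = p.1 ∧ j = p.2 then Polynomial.X else 0)) F
      have hq : ∀ b : Ω, q.eval b =
          ev F (SpecialLinearGroup.transvection hij b : SpecialLinearGroup (Fin m) Ω).1 := by
        intro b
        unfold ev
        have h1 : q.eval b = (Polynomial.aeval b) q := by
          rw [Polynomial.aeval_def, Polynomial.eval₂_eq_eval_map]; simp
        rw [h1]
        change (Polynomial.aeval b) (aeval _ F) = _
        rw [← AlgHom.comp_apply, MvPolynomial.comp_aeval, ← aeval_eq_eval]
        congr 2
        funext p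
        rw [transvection_coe, Matrix.add_apply, Matrix.single_apply]
        by_cases hp : i = p.1 ∧ j = p.2
        · simp [hp]
        · simp [hp]
      have hq0 : q = 0 := by
        refine Polynomial.eq_zero_of_infinite_isRoot q ?_
        refine Set.Infinite.mono (s := Set.range (fun n : ℤ => (n : Ω))) ?_
          (Set.infinite_range_of_injective Int.cast_injective)
        rintro _ ⟨n, rfl⟩
        change q.eval (n : Ω) = 0
        rw [hq]
        have h2 := hF (SpecialLinearGroup.transvection hij n)
        have h3 : toΩ Ω (SpecialLinearGroup.transvection hij n : SpecialLinearGroup (Fin m) ℤ) =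
            (SpecialLinearGroup.transvection hij (n : Ω) : SpecialLinearGroup (Fin m) Ω).1 := by
          unfold toΩ
          ext k l
          rw [transvection_coe, transvection_coe, Matrix.map_apply, Matrix.add_apply,
            Matrix.add_apply, Matrix.single_apply, Matrix.single_apply, map_add,
            Matrix.one_apply, Matrix.one_apply]
          split_ifs <;> simp
        rw [h3] at h2
        exact h2
      rw [← hq c, hq0, Polynomial.eval_zero]
    · intro A B hA hB F hF
      change ev F ((A : Matrix (Fin m) (Fin m) Ω) * (B : Matrix (Fin m) (Fin m) Ω)) = 0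
      -- first: F(g B) = 0 for integral g
      have h1 : ∀ g : SpecialLinearGroup (Fin m) ℤ,
          ev F (toΩ Ω g * (B : Matrix (Fin m) (Fin m) Ω)) = 0 := by
        intro g
        obtain ⟨F', hF'⟩ := ev_left F (toΩ Ω g)
        rw [← hF']
        refine hB F' fun h => ?_
        rw [hF', ← toΩ_mul]
        exact hF _
      obtain ⟨F', hF'⟩ := ev_right F (B : Matrix (Fin m) (Fin m) Ω)
      rw [← hF']
      refine hA F' fun g => ?_
      rw [hF']
      exact h1 g
  · have hs : Subsingleton (Fin m) := not_nontrivial_iff_subsingleton.1 hm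
    have h1 : (u : Matrix (Fin m) (Fin m) Ω) = 1 := by
      have hdet := u.2
      ext i j
      have hij : j = i := Subsingleton.elim _ _
      subst hij
      have h2 : Matrix.det (u : Matrix (Fin m) (Fin m) Ω) = (u : Matrix (Fin m) (Fin m) Ω) j j := by
        exact Matrix.det_eq_elem_of_subsingleton _ j
      rw [Matrix.one_apply_eq, ← h2]
      exact hdet
    have h3 := hF 1
    have h4 : toΩ Ω (1 : SpecialLinearGroup (Fin m) ℤ) = 1 := by
      exact Matrix.map_one _ (map_zero _) (map_one _)
    rw [h4] at h3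
    rw [h1]
    exact h3

/-- **T4**: a polynomial which does not vanish at a matrix of determinant one over `Ω` does not
vanish at some integral matrix of determinant one. -/
theorem exists_int [CharZero Ω] (F : MvPolynomial (Fin m × Fin m) Ω)
    (u0 : SpecialLinearGroup (Fin m) Ω) (h : eval (fun p => u0 p.1 p.2) F ≠ 0) :
    ∃ u : SpecialLinearGroup (Fin m) ℤ, eval (fun p => ((u p.1 p.2 : ℤ) : Ω)) F ≠ 0 := by
  by_contra hcon
  push Not at hcon
  exact h (dense_int F (fun g => hcon g) u0)

/-- substitution of constants for all blocks but one -/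
theorem ev_block {r : ℕ} {m : Fin r → ℕ}
    (F : MvPolynomial (Σ i, Fin (m i) × Fin (m i)) Ω)
    (w : ∀ i, Matrix (Fin (m i)) (Fin (m i)) Ω) (i : Fin r) :
    ∃ F' : MvPolynomial (Fin (m i) × Fin (m i)) Ω, ∀ A : Matrix (Fin (m i)) (Fin (m i)) Ω,
      eval (fun p => A p.1 p.2) F' =
        eval (fun q : Σ i, Fin (m i) × Fin (m i) => (Function.update w i A) q.1 q.2.1 q.2.2) F := by
  refine ⟨bind₁ (fun q : Σ i, Fin (m i) × Fin (m i) =>
    if h : q.1 = i then X (h ▸ q.2) else C (w q.1 q.2.1 q.2.2)) F, fun A => ?_⟩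
  rw [← aeval_eq_eval, aeval_bind₁, ← aeval_eq_eval]
  congr 2
  funext q
  obtain ⟨k, p⟩ := q
  by_cases h : k = i
  · subst h
    simp
  · simp [h, Function.update_of_ne h]

/-- **T4**, family form. -/
theorem exists_int_family [CharZero Ω] {r : ℕ} {m : Fin r → ℕ}
    (F : MvPolynomial (Σ i, Fin (m i) × Fin (m i)) Ω)
    (u0 : ∀ i, Matrix.SpecialLinearGroup (Fin (m i)) Ω)
    (h : eval (fun q : Σ i, Fin (m i) × Fin (m i) => (u0 q.1) q.2.1 q.2.2) F ≠ 0) :
    ∃ u : ∀ i, Matrix.SpecialLinearGroup (Fin (m i)) ℤ,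
      eval (fun q : Σ i, Fin (m i) × Fin (m i) => (((u q.1) q.2.1 q.2.2 : ℤ) : Ω)) F ≠ 0 := by
  classical
  have key : ∀ s : Finset (Fin r), ∃ w : ∀ i, Matrix (Fin (m i)) (Fin (m i)) Ω,
      (∀ i, i ∈ s → ∃ g : Matrix.SpecialLinearGroup (Fin (m i)) ℤ,
        ∀ a b, w i a b = ((g a b : ℤ) : Ω)) ∧
      (∀ i, i ∉ s → ∀ a b, w i a b = u0 i a b) ∧
      eval (fun q : Σ i, Fin (m i) × Fin (m i) => (w q.1) q.2.1 q.2.2) F ≠ 0 := by
    intro s
    induction s using Finset.induction_on with
    | empty =>
      refine ⟨fun i a b => u0 i a b, fun i hi => absurd hi (Finset.notMem_empty i),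
        fun i _ a b => rfl, h⟩
    | insert i s his ih =>
      obtain ⟨w, hw1, hw2, hw3⟩ := ih
      obtain ⟨F', hF'⟩ := ev_block F w i
      have h1 : eval (fun p => u0 i p.1 p.2) F' ≠ 0 := by
        have h2 := hF' (w i)
        rw [Function.update_eq_self] at h2
        have h3 : (fun p : Fin (m i) × Fin (m i) => u0 i p.1 p.2) =
            (fun p : Fin (m i) × Fin (m i) => w i p.1 p.2) := by
          funext p
          exact (hw2 i his p.1 p.2).symm
        rw [h3, h2]
        exact hw3
      obtain ⟨g, hg⟩ := exists_int F' (u0 i) h1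
      refine ⟨Function.update w i (fun a b => ((g a b : ℤ) : Ω)), ?_, ?_, ?_⟩
      · intro j hj
        by_cases hji : j = i
        · subst hji
          exact ⟨g, fun a b => by rw [Function.update_self]⟩
        · obtain ⟨g', hg'⟩ := hw1 j (Finset.mem_of_mem_insert_of_ne hj hji)
          exact ⟨g', fun a b => by rw [Function.update_of_ne hji]; exact hg' a b⟩
      · intro j hj a b
        have hji : j ≠ i := fun h => hj (h ▸ Finset.mem_insert_self i s)
        rw [Function.update_of_ne hji]
        exact hw2 j (fun h => hj (Finset.mem_insert_of_mem h)) a b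
      · rw [← hF' (fun a b => ((g a b : ℤ) : Ω))]
        exact hg
  obtain ⟨w, hw1, -, hw3⟩ := key Finset.univ
  choose u hu using fun i => hw1 i (Finset.mem_univ i)
  refine ⟨u, ?_⟩
  have h4 : (fun q : Σ i, Fin (m i) × Fin (m i) => (((u q.1) q.2.1 q.2.2 : ℤ) : Ω)) =
      fun q : Σ i, Fin (m i) × Fin (m i) => (w q.1) q.2.1 q.2.2 := by
    funext q
    exact (hu q.1 q.2.1 q.2.2).symm
  rw [h4]
  exact hw3

end

end Pool.Agent.Helper18.TW
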